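import Pool.Agent.Helper44.S3.Main

/-!
# Blocks with one simple module and a normal 2-subgroup: the support and the quotient
-/

set_option autoImplicit false
open scoped BigOperators MonoidAlgebra
open Classical

namespace Pool.Agent.Helper32.ND

open Pool.Agent.Helper36.NB Pool.Agent.Helper44.S3

/-- The coefficient at `1` as a trace function. -/
noncomputable def oneT (O : ValuationSubring ℂ) (G : Type) [Group G] : TraceFun O G where
  f :=
    { toFun := fun x => (x.coeff 1 : ℂ)
      map_add' := fun x y => by simp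
      map_smul' := fun c x => by
        simp only [MonoidAlgebra.coeff_smul, Finsupp.smul_apply, smul_eq_mul, RingHom.id_apply]
        rfl }
  comm := fun a b => by
    change ((a * b).coeff 1 : ℂ) = ((b * a).coeff 1 : ℂ)
    congr 1
    induction a using MonoidAlgebra.induction_linear with
    | zero => simp
    | add x y hx hy => rw [add_mul, mul_add, MonoidAlgebra.coeff_add, MonoidAlgebra.coeff_add,
        Finsupp.add_apply, Finsupp.add_apply, hx, hy]
    | single g r =>
      induction b using MonoidAlgebra.induction_linear with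
      | zero => simp
      | add x y hx hy => rw [mul_add, add_mul, MonoidAlgebra.coeff_add, MonoidAlgebra.coeff_add,
        Finsupp.add_apply, Finsupp.add_apply, hx, hy]
      | single h s =>
        rw [MonoidAlgebra.single_mul_single, MonoidAlgebra.single_mul_single,
          MonoidAlgebra.coeff_single, MonoidAlgebra.coeff_single, Finsupp.single_apply,
          Finsupp.single_apply, mul_comm r s]
        refine if_congr ?_ rfl rfl
        rw [mul_eq_one_iff_eq_inv, mul_eq_one_iff_inv_eq]
        exact eq_comm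

theorem oneT_apply (O : ValuationSubring ℂ) {G : Type} [Group G] (x : MonoidAlgebra O G) :
    (oneT O G).f x = (x.coeff 1 : ℂ) := rfl

/-- The projection `O[G] → O[G/Q]`. -/
noncomputable def pr (O : ValuationSubring ℂ) {G : Type} [Group G] (Q : Subgroup G) [Q.Normal] :
    MonoidAlgebra O G →+* MonoidAlgebra O (G ⧸ Q) :=
  MonoidAlgebra.mapDomainRingHom O (QuotientGroup.mk' Q)

theorem pr_eq (O : ValuationSubring ℂ) {G : Type} [Group G] (Q : Subgroup G) [Q.Normal]
    (x : MonoidAlgebra O G) :
    pr O Q x = MonoidAlgebra.mapDomain (QuotientGroup.mk' Q) x := rfl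

theorem pr_single (O : ValuationSubring ℂ) {G : Type} [Group G] (Q : Subgroup G) [Q.Normal]
    (g : G) (r : O) :
    pr O Q (MonoidAlgebra.single g r) = MonoidAlgebra.single (g : G ⧸ Q) r := by
  rw [pr_eq, MonoidAlgebra.mapDomain_single]
  rfl

theorem pr_el (O : ValuationSubring ℂ) {G : Type} [Group G] (Q : Subgroup G) [Q.Normal] (g : G) :
    pr O Q (el O g) = el O (g : G ⧸ Q) := pr_single O Q g 1

theorem pr_smul (O : ValuationSubring ℂ) {G : Type} [Group G] (Q : Subgroup G) [Q.Normal]
    (c : O) (x : MonoidAlgebra O G) : pr O Q (c • x) = c • pr O Q x := by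
  induction x using MonoidAlgebra.induction_linear with
  | zero => simp
  | add x y hx hy => rw [smul_add, map_add, map_add, hx, hy, smul_add]
  | single g r =>
    rw [MonoidAlgebra.smul_single, pr_single, pr_single, MonoidAlgebra.smul_single]

theorem pr_surj (O : ValuationSubring ℂ) {G : Type} [Group G] (Q : Subgroup G) [Q.Normal] :
    Function.Surjective (pr O Q) := by
  intro y
  induction y using MonoidAlgebra.induction_linear with
  | zero => exact ⟨0, map_zero _⟩
  | add x y hx hy =>
    obtain ⟨x', rfl⟩ := hx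
    obtain ⟨y', rfl⟩ := hy
    exact ⟨x' + y', map_add _ _ _⟩
  | single g r =>
    obtain ⟨g', rfl⟩ := QuotientGroup.mk_surjective g
    exact ⟨MonoidAlgebra.single g' r, pr_single O Q g' r⟩

theorem pr_inv (O : ValuationSubring ℂ) {G : Type} [Group G] (Q : Subgroup G) [Q.Normal]
    (x : MonoidAlgebra O G) : pr O Q (inv' x) = inv' (pr O Q x) := by
  induction x using MonoidAlgebra.induction_linear with
  | zero => rw [inv'_zero, map_zero, inv'_zero]
  | add x y hx hy => rw [inv'_add, map_add, map_add, hx, hy, inv'_add]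
  | single g r =>
    rw [pr_single]
    unfold inv'
    rw [MonoidAlgebra.mapDomain_single, MonoidAlgebra.mapDomain_single, pr_single]
    rfl

theorem pr_coeff (O : ValuationSubring ℂ) {G : Type} [Group G] [Fintype G] (Q : Subgroup G)
    [Q.Normal] (x : MonoidAlgebra O G) (w : G ⧸ Q) :
    (pr O Q x).coeff w = ∑ g : G, if (g : G ⧸ Q) = w then x.coeff g else 0 := by
  induction x using MonoidAlgebra.induction_linear with
  | zero => simp
  | add x y hx hy =>
    rw [map_add, MonoidAlgebra.coeff_add, Finsupp.add_apply, hx, hy, ← Finset.sum_add_distrib]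
    refine Finset.sum_congr rfl fun g _ => ?_
    rw [MonoidAlgebra.coeff_add, Finsupp.add_apply]
    split_ifs
    · rfl
    · rw [add_zero]
  | single h r =>
    rw [pr_single, MonoidAlgebra.coeff_single, Finsupp.single_apply,
      Finset.sum_eq_single h]
    · rw [MonoidAlgebra.coeff_single, Finsupp.single_eq_same]
    · intro b _ hb
      rw [MonoidAlgebra.coeff_single, Finsupp.single_eq_of_ne hb, ite_self]
    · intro h'
      exact absurd (Finset.mem_univ h) h'

/-- The pull-back of a trace function. -/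
noncomputable def pull (O : ValuationSubring ℂ) {G : Type} [Group G] (Q : Subgroup G) [Q.Normal]
    (T : TraceFun O (G ⧸ Q)) : TraceFun O G where
  f :=
    { toFun := fun x => T.f (pr O Q x)
      map_add' := fun x y => by rw [map_add, map_add]
      map_smul' := fun c x => by
        rw [pr_smul, map_smul, RingHom.id_apply] }
  comm := fun a b => by
    change T.f (pr O Q (a * b)) = T.f (pr O Q (b * a))
    rw [map_mul (pr O Q), map_mul (pr O Q), T.comm]

theorem pull_apply (O : ValuationSubring ℂ) {G : Type} [Group G] (Q : Subgroup G) [Q.Normal]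
    (T : TraceFun O (G ⧸ Q)) (x : MonoidAlgebra O G) : (pull O Q T).f x = T.f (pr O Q x) := rfl

/-- A central idempotent vanishes at the elements of even order. -/
theorem coeff_even (O : ValuationSubring ℂ) {G : Type} [Group G] [Fintype G]
    (h2 : (2 : O) ∈ IsLocalRing.maximalIdeal O) (e : MonoidAlgebra O G) (he : e * e = e)
    (hec : ∀ a, a * e = e * a) (s : G) (hs : Even (orderOf s)) : e.coeff s = 0 := by
  have h := proj_vanish O h2 e he s hs
  have hc : ∀ g : G, e.coeff (g⁻¹ * s * g) = e.coeff s := by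
    intro g
    have h1 := congrArg (fun a : MonoidAlgebra O G => a.coeff (g⁻¹ * s)) (hec (el O g⁻¹))
    simp only [el_mul_coeff, mul_el_coeff] at h1
    rw [inv_inv, mul_inv_cancel_left] at h1
    exact h1.symm
  rw [Finset.sum_congr rfl (fun g _ => hc g), Finset.sum_const, Finset.card_univ,
    nsmul_eq_mul] at h
  rcases mul_eq_zero.1 h with h3 | h3
  · exact absurd h3 (Nat.cast_ne_zero.2 Fintype.card_ne_zero)
  · exact h3

section main

variable (O : ValuationSubring ℂ) {G : Type} [Group G] [Fintype G]
  (h2 : (2 : O) ∈ IsLocalRing.maximalIdeal O) (e : MonoidAlgebra O G) (he : e * e = e)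
  (hec : ∀ a, a * e = e * a) (S : SimpleQuot (toK O G e)) (Q : Subgroup G) [Q.Normal]
  (hQ : IsPGroup 2 Q)

include h2 he hec hQ in
/-- The coefficient of the image at `1`. -/
theorem pr_coeff_one : (pr O Q e).coeff 1 = e.coeff 1 := by
  rw [pr_coeff, Finset.sum_eq_single 1]
  · rw [if_pos (QuotientGroup.mk_one Q)]
  · intro g _ hg
    split_ifs with h
    · have hgQ : g ∈ Q := (QuotientGroup.eq_one_iff g).1 h
      refine coeff_even O h2 e he hec g ?_
      obtain ⟨k, hk⟩ := hQ ⟨g, hgQ⟩
      have hk' : g ^ 2 ^ k = 1 := by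
        have := congrArg Subtype.val hk
        simpa using this
      have hdvd : orderOf g ∣ 2 ^ k := orderOf_dvd_of_pow_eq_one hk'
      obtain ⟨m, -, hm⟩ := (Nat.dvd_prime_pow Nat.prime_two).1 hdvd
      rw [hm]
      rcases Nat.eq_zero_or_pos m with h0 | h0
      · exfalso
        apply hg
        rw [h0, pow_zero] at hm
        exact orderOf_eq_one_iff.1 hm
      · exact (Nat.even_pow.2 ⟨even_two, h0.ne'⟩)
    · rfl
  · intro h
    exact absurd (Finset.mem_univ _) h

include h2 he hec S hQ in
/-- The coefficients of the image at the images of the elements of odd order. -/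
theorem pr_coeff_odd (s : G) (hs : Odd (orderOf s)) :
    (pr O Q e).coeff (s : G ⧸ Q) = e.coeff s := by
  obtain ⟨j, hj, hje, hj1⟩ := exists_rank_one O e he hec S
  have hn : (S.n : ℂ) ≠ 0 := Nat.cast_ne_zero.2 S.pos.ne'
  have hT : ∀ T : TraceFun O G, T.f e = (S.n : ℂ) * T.f j := by
    intro T
    have h := trace_rank O e he hec S j hj hje hj1 e he he T
    rw [S.one, Matrix.rank_one, Fintype.card_fin] at h
    exact h
  have h1 := hT (oneT O G)
  have h3 := hT (pull O Q (oneT O (G ⧸ Q)))
  rw [pull_apply, oneT_apply, pr_coeff_one O h2 e he hec Q hQ] at h3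
  rw [oneT_apply] at h1
  have h4 : (oneT O G).f j = (pull O Q (oneT O (G ⧸ Q))).f j :=
    mul_left_cancel₀ hn (h1.symm.trans h3)
  have hs' : Odd (orderOf s⁻¹) := by rw [orderOf_inv]; exact hs
  obtain ⟨φ, -, -, hφ⟩ := brauer_val O h2 e he hec S j hj hje hj1 s⁻¹ hs'
  have h5 := hφ (oneT O G)
  have h6 := hφ (pull O Q (oneT O (G ⧸ Q)))
  rw [← h4, ← h5, oneT_apply, pull_apply, oneT_apply, map_mul, pr_el, el_mul_coeff, el_mul_coeff,
    mul_one, mul_one, inv_inv] at h6
  have h7 : ((s⁻¹ : G) : G ⧸ Q)⁻¹ = (s : G ⧸ Q) := by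
    rw [QuotientGroup.mk_inv, inv_inv]
  rw [h7] at h6
  exact Subtype.ext h6

include h2 he hec S hQ in
/-- The support of `e` is contained in the centraliser of `Q`. -/
theorem supp_cent (s : G) (hs : e.coeff s ≠ 0) (q : G) (hq : q ∈ Q) : q * s = s * q := by
  have hodd : ∀ g : G, e.coeff g ≠ 0 → Odd (orderOf g) := by
    intro g hg
    by_contra hcon
    rw [Nat.not_odd_iff_even] at hcon
    exact hg (coeff_even O h2 e he hec g hcon)
  have hso := hodd s hs
  have hW : ∀ w : G, (w : G ⧸ Q) = s → Odd (orderOf w) → e.coeff w = e.coeff s := by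
    intro w hw hwo
    rw [← pr_coeff_odd O h2 e he hec S Q hQ w hwo, ← pr_coeff_odd O h2 e he hec S Q hQ s hso, hw]
  have h1 := pr_coeff_odd O h2 e he hec S Q hQ s hso
  rw [pr_coeff] at h1
  set W : Finset G := Finset.univ.filter (fun w : G => (w : G ⧸ Q) = s ∧ Odd (orderOf w)) with hWd
  have h3 : ∑ g : G, (if (g : G ⧸ Q) = (s : G ⧸ Q) then e.coeff g else 0) =
      ∑ w ∈ W, e.coeff s := by
    rw [hWd, Finset.sum_filter]
    refine Finset.sum_congr rfl fun g _ => ?_
    by_cases h : (g : G ⧸ Q) = s
    · by_cases ho : Odd (orderOf g)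
      · rw [if_pos h, if_pos ⟨h, ho⟩, hW g h ho]
      · rw [if_pos h, if_neg (fun h' => ho h'.2)]
        by_contra hne
        exact ho (hodd g hne)
    · rw [if_neg h, if_neg (fun h' => h h'.1)]
  rw [h3, Finset.sum_const, nsmul_eq_mul] at h1
  have h4 : ((W.card : O) - 1) * e.coeff s = 0 := by rw [sub_mul, one_mul, h1, sub_self]
  have h5 : (W.card : O) = 1 := by
    rcases mul_eq_zero.1 h4 with h | h
    · exact sub_eq_zero.1 h
    · exact absurd h hs
  have h6 : W.card = 1 := by exact_mod_cast h5
  obtain ⟨w, hw⟩ := Finset.card_eq_one.1 h6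
  have hsW : s ∈ W := by
    rw [hWd, Finset.mem_filter]
    exact ⟨Finset.mem_univ _, rfl, hso⟩
  have hqW : q * s * q⁻¹ ∈ W := by
    rw [hWd, Finset.mem_filter]
    refine ⟨Finset.mem_univ _, ?_, ?_⟩
    · have hq1 : ((q : G) : G ⧸ Q) = 1 := (QuotientGroup.eq_one_iff q).2 hq
      rw [QuotientGroup.mk_mul, QuotientGroup.mk_mul, QuotientGroup.mk_inv, hq1, one_mul, inv_one,
        mul_one]
    · have h := (MulAut.conj q).orderOf_eq s
      rw [MulAut.conj_apply] at h
      rw [h]
      exact hso
  rw [hw, Finset.mem_singleton] at hsW hqW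
  have h7 : q * s * q⁻¹ = s := by rw [hqW, ← hsW]
  calc q * s = q * s * q⁻¹ * q := by group
    _ = s * q := by rw [h7]

include h2 he hec S hQ in
/-- For `s` in the support of `e`, commuting with `u` modulo `Q` is commuting with `u`. -/
theorem comm_of_mk (s u : G) (hs : e.coeff s ≠ 0) :
    (s : G ⧸ Q) * u = u * s ↔ s * u = u * s := by
  constructor
  · intro h
    have hso : Odd (orderOf s) := by
      by_contra hcon
      rw [Nat.not_odd_iff_even] at hcon
      exact hs (coeff_even O h2 e he hec s hcon)
    -- `u s u⁻¹ = s q`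
    set q : G := s⁻¹ * (u * s * u⁻¹) with hq
    have hqQ : q ∈ Q := by
      rw [← QuotientGroup.eq_one_iff, hq, QuotientGroup.mk_mul, QuotientGroup.mk_mul,
        QuotientGroup.mk_mul, QuotientGroup.mk_inv, QuotientGroup.mk_inv, ← h]
      group
    have hcom : Commute s q :=
      (supp_cent O h2 e he hec S Q hQ s hs q hqQ).symm
    have h1 : s * q = u * s * u⁻¹ := by rw [hq]; group
    have h3 : (s * q) ^ orderOf s = 1 := by
      rw [h1]
      have h4 : (u * s * u⁻¹) ^ orderOf s = u * s ^ orderOf s * u⁻¹ := by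
        rw [conj_pow]
      rw [h4, pow_orderOf_eq_one, mul_one, mul_inv_cancel]
    rw [hcom.mul_pow, pow_orderOf_eq_one, one_mul] at h3
    obtain ⟨k, hk⟩ := hQ ⟨q, hqQ⟩
    have hk' : q ^ 2 ^ k = 1 := by
      have := congrArg Subtype.val hk
      simpa using this
    have h4 : orderOf q ∣ Nat.gcd (orderOf s) (2 ^ k) :=
      Nat.dvd_gcd (orderOf_dvd_of_pow_eq_one h3) (orderOf_dvd_of_pow_eq_one hk')
    have h5 : Nat.gcd (orderOf s) (2 ^ k) = 1 :=
      Nat.Coprime.pow_right _ (Nat.coprime_two_right.2 hso)
    rw [h5, Nat.dvd_one, orderOf_eq_one_iff] at h4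
    rw [h4, mul_one] at h1
    calc s * u = u * s * u⁻¹ * u := by rw [← h1]
      _ = u * s := by group
  · intro h
    rw [← QuotientGroup.mk_mul, ← QuotientGroup.mk_mul, h]

end main

end Pool.Agent.Helper32.ND
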