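import Pool.Agent.Helper32.ND.A

/-!
# The real central idempotents with one irreducible character
-/

set_option autoImplicit false
open scoped BigOperators MonoidAlgebra
open Classical

namespace Pool.Agent.Helper32.ND

open Pool.Agent.Helper36.NB Pool.Agent.Helper44.S3

section cnt

variable {H : Type} [Group H] [Fintype H]

/-- The elements `g` with `g t = u g`. -/
noncomputable def tr (u t : H) : Finset H := Finset.univ.filter (fun g : H => g * t = u * g)

theorem mem_tr {u t g : H} : g ∈ tr u t ↔ g * t = u * g := by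
  unfold tr
  rw [Finset.mem_filter]
  exact ⟨fun h => h.2, fun h => ⟨Finset.mem_univ _, h⟩⟩

/-- The sum over `tr u t`, if non-empty, is a sum over the centraliser of `t`. -/
theorem sum_tr {M : Type} [AddCommMonoid M] (f : H → M) {u t g0 : H} (h0 : g0 ∈ tr u t) :
    ∑ g ∈ tr u t, f g = ∑ c ∈ cset t, f (g0 * c) := by
  rw [mem_tr] at h0
  symm
  refine Finset.sum_bij (fun c _ => g0 * c) ?_ ?_ ?_ ?_
  · intro c hc
    simp only [cset, Finset.mem_filter, Finset.mem_univ, true_and] at hc
    rw [mem_tr, mul_assoc, hc, ← mul_assoc, h0, mul_assoc]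
  · intro c _ c' _ h
    exact mul_left_cancel h
  · intro g hg
    rw [mem_tr] at hg
    refine ⟨g0⁻¹ * g, ?_, by group⟩
    simp only [cset, Finset.mem_filter, Finset.mem_univ, true_and]
    have h1 : g0⁻¹ * u = t * g0⁻¹ := by
      calc g0⁻¹ * u = g0⁻¹ * (u * g0) * g0⁻¹ := by group
        _ = g0⁻¹ * (g0 * t) * g0⁻¹ := by rw [h0]
        _ = t * g0⁻¹ := by group
    calc g0⁻¹ * g * t = g0⁻¹ * (g * t) := by group
      _ = g0⁻¹ * (u * g) := by rw [hg]
      _ = g0⁻¹ * u * g := by group
      _ = t * (g0⁻¹ * g) := by rw [h1]; group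
  · intro c _
    rfl

/-- The cardinality of `tr u t` is the one of the centraliser of `u`. -/
theorem card_tr {u t g0 : H} (h0 : g0 ∈ tr u t) : (tr u t).card = (cset u).card := by
  rw [mem_tr] at h0
  refine Finset.card_bij (fun g _ => g * g0⁻¹) ?_ ?_ ?_
  · intro g hg
    rw [mem_tr] at hg
    simp only [cset, Finset.mem_filter, Finset.mem_univ, true_and]
    have h1 : g0⁻¹ * u = t * g0⁻¹ := by
      calc g0⁻¹ * u = g0⁻¹ * (u * g0) * g0⁻¹ := by group
        _ = g0⁻¹ * (g0 * t) * g0⁻¹ := by rw [h0]
        _ = t * g0⁻¹ := by group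
    calc g * g0⁻¹ * u = g * (g0⁻¹ * u) := by group
      _ = g * t * g0⁻¹ := by rw [h1]; group
      _ = u * (g * g0⁻¹) := by rw [hg]; group
  · intro g _ g' _ h
    exact mul_right_cancel h
  · intro c hc
    simp only [cset, Finset.mem_filter, Finset.mem_univ, true_and] at hc
    refine ⟨c * g0, ?_, by group⟩
    rw [mem_tr]
    calc c * g0 * t = c * (g0 * t) := by group
      _ = c * u * g0 := by rw [h0]; group
      _ = u * (c * g0) := by rw [hc]; group

/-- Every `g` is in exactly one `tr u t`. -/
theorem sum_card_tr (t : H) : ∑ u : H, (tr u t).card = Nat.card H := by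
  have h1 : ∀ u : H, (tr u t).card = ∑ g : H, if u = g * t * g⁻¹ then 1 else 0 := by
    intro u
    unfold tr
    rw [Finset.card_filter]
    refine Finset.sum_congr rfl fun g _ => if_congr ?_ rfl rfl
    constructor
    · intro h
      rw [h]; group
    · intro h
      rw [h]; group
  rw [Finset.sum_congr rfl fun u _ => h1 u, Finset.sum_comm]
  have h3 : ∀ g : H, (∑ u : H, if u = g * t * g⁻¹ then 1 else 0) = 1 := by
    intro g
    rw [Finset.sum_ite_eq' Finset.univ (g * t * g⁻¹) (fun _ => 1), if_pos (Finset.mem_univ _)]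
  rw [Finset.sum_congr rfl fun g _ => h3 g, Finset.sum_const, Finset.card_univ, smul_eq_mul,
    mul_one, Nat.card_eq_fintype_card]

end cnt

/-- The product formula for the coefficients. -/
theorem coeff_mul_sum' {R : Type} [CommRing R] {H : Type} [Group H] [Fintype H]
    (x y : MonoidAlgebra R H) (g : H) :
    (x * y).coeff g = ∑ h : H, x.coeff h * y.coeff (h⁻¹ * g) := by
  rw [MonoidAlgebra.coeff_mul_antidiag x y g
    (Finset.univ.image fun h : H => (h, h⁻¹ * g)) (by
      rintro ⟨p, q⟩
      simp only [Finset.mem_image, Finset.mem_univ, true_and, Prod.mk.injEq]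
      constructor
      · rintro ⟨h, rfl, rfl⟩; group
      · rintro rfl
        exact ⟨p, rfl, by group⟩)]
  rw [Finset.sum_image]
  intro a _ b _ hab
  exact (Prod.mk.inj hab).1

/-- The square lemma: for a real central idempotent `e` over a field of characteristic `2` and
`y² = u² = 1`, the coefficient of `e` at `y u` is the square of the sum of the coefficients at the
elements `g` with `g y = u g`. -/
theorem sq_coeff {k : Type} [Field k] [CharP k 2] {H : Type} [Group H] [Fintype H]
    (e : MonoidAlgebra k H) (hee : e * e = e) (hec : ∀ a, a * e = e * a) (her : inv' e = e)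
    (y u : H) (hy : y * y = 1) (hu : u * u = 1) :
    e.coeff (y * u) = (∑ g ∈ tr u y, e.coeff g) ^ 2 := by
  have hyi : y⁻¹ = y := inv_eq_of_mul_eq_one_left hy
  have hui : u⁻¹ = u := inv_eq_of_mul_eq_one_left hu
  have hinv : ∀ g, e.coeff g⁻¹ = e.coeff g := by
    intro g
    rw [← inv'_coeff, her]
  have h1 : e * el k y * e = el k y * e := by
    rw [mul_assoc, ← hec (el k y * e), mul_assoc, hee]
  have h2 := congrArg (fun z => z.coeff u) h1
  simp only [el_mul_coeff] at h2
  rw [hyi] at h2
  rw [← h2, coeff_mul_sum']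
  simp only [mul_el_coeff]
  -- substitute `h = g y`
  have h3 : ∑ h : H, e.coeff (h * y⁻¹) * e.coeff (h⁻¹ * u) =
      ∑ g : H, e.coeff g * e.coeff (y⁻¹ * g⁻¹ * u) := by
    refine Fintype.sum_bijective (fun h => h * y⁻¹) (Group.mulRight_bijective _) _ _ fun h => ?_
    congr 2
    group
  rw [h3]
  rw [← Finset.sum_filter_add_sum_filter_not Finset.univ (fun g : H => g * y = u * g)
    (fun g => e.coeff g * e.coeff (y⁻¹ * g⁻¹ * u))]
  have h4 : ∑ g ∈ Finset.univ.filter (fun g : H => ¬ g * y = u * g),
      e.coeff g * e.coeff (y⁻¹ * g⁻¹ * u) = 0 := by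
    refine Finset.sum_involution (fun g _ => u * g * y) ?_ ?_ ?_ ?_
    · intro g _
      have e1 : e.coeff (y⁻¹ * (u * g * y)⁻¹ * u) = e.coeff g := by
        rw [← hinv g]
        congr 1
        rw [mul_inv_rev, mul_inv_rev, hyi, hui]
        calc y * (y * (g⁻¹ * u)) * u = (y * y) * g⁻¹ * (u * u) := by group
          _ = g⁻¹ := by rw [hy, hu, one_mul, mul_one]
      have e3 : e.coeff (u * g * y) = e.coeff (y⁻¹ * g⁻¹ * u) := by
        rw [← hinv (u * g * y), mul_inv_rev, mul_inv_rev, hui]
        congr 1
        group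
      rw [e1, e3, mul_comm (e.coeff g)]
      exact CharTwo.add_self_eq_zero _
    · intro g hg _ h
      rw [Finset.mem_filter] at hg
      apply hg.2
      calc g * y = u * g * y * y := by rw [h]
        _ = u * g * (y * y) := by group
        _ = u * g := by rw [hy, mul_one]
    · intro g hg
      rw [Finset.mem_filter] at hg ⊢
      refine ⟨Finset.mem_univ _, fun h => hg.2 ?_⟩
      have h5 : u * g = g * y := by
        calc u * g = u * g * (y * y) := by rw [hy, mul_one]
          _ = u * g * y * y := by group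
          _ = u * (u * g * y) := h
          _ = (u * u) * g * y := by group
          _ = g * y := by rw [hu, one_mul]
      exact h5.symm
    · intro g _
      calc u * (u * g * y) * y = (u * u) * g * (y * y) := by group
        _ = g := by rw [hy, hu, one_mul, mul_one]
  rw [h4, add_zero]
  have h5 : ∑ g ∈ Finset.univ.filter (fun g : H => g * y = u * g),
      e.coeff g * e.coeff (y⁻¹ * g⁻¹ * u) = ∑ g ∈ tr u y, (e.coeff g) ^ 2 := by
    refine Finset.sum_congr rfl fun g hg => ?_
    have hg2 : g * y = u * g := mem_tr.1 hg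
    rw [sq]
    congr 1
    rw [← hinv g]
    congr 1
    calc y⁻¹ * g⁻¹ * u = (g * y)⁻¹ * u := by group
      _ = (u * g)⁻¹ * u := by rw [hg2]
      _ = g⁻¹ * (u⁻¹ * u) := by group
      _ = g⁻¹ := by rw [inv_mul_cancel, mul_one]
  rw [h5]
  exact (sum_pow_char 2 _ _).symm

section base

variable (O : ValuationSubring ℂ) {H : Type} [Group H] [Fintype H]

/-- The base case: `e` is a real central idempotent of rank `n²` and all characters have values
at `e` divisible by `n`; the involution `t` inverts `x` and `e(x)` is a unit. -/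
theorem base (h2 : (2 : O) ∈ IsLocalRing.maximalIdeal O) (I : IrrData H)
    (e : MonoidAlgebra O H) (hee : e * e = e)
    (hec : ∀ a, a * e = e * a) (her : inv' e = e) (n : ℕ) (hn : 0 < n)
    (h1 : (Nat.card H : ℂ) * (e.coeff 1 : ℂ) = (n : ℂ) ^ 2)
    (hdiv : ∀ a, ∃ m : ℕ, I.chi a (toC O H e) = (n : ℂ) * m)
    (t x : H) (ht : t * t = 1) (htx : t * x * t⁻¹ = x⁻¹)
    (hx : IsLocalRing.residue O (e.coeff x) ≠ 0) (u : H) (hu : u * u = 1) :
    (Nat.card H : ℂ) * ∑ s ∈ cset u, (e.coeff s : ℂ) = n * ((tr u t).card : ℂ) := by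
  haveI : CharP (resK O) 2 := resK_charP O h2
  have hn0 : (n : ℂ) ≠ 0 := Nat.cast_ne_zero.2 hn.ne'
  have hH0 : (Nat.card H : ℂ) ≠ 0 := Nat.cast_ne_zero.2 Nat.card_pos.ne'
  have hCee : toC O H e * toC O H e = toC O H e := by rw [← map_mul, hee]
  have hCec : ∀ y, y * toC O H e = toC O H e * y := by
    apply E0aux.central_of_el
    intro g
    rw [← toC_el O g, ← map_mul, ← map_mul, hec]
  choose m hm using hdiv
  -- exactly one character
  have hcase : ∀ a, (m a = 0 ∧ I.equiv (toC O H e) a = 0) ∨
      (m a ≠ 0 ∧ I.equiv (toC O H e) a = 1 ∧ I.d a = n * m a) := by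
    intro a
    rcases chi_central I a (toC O H e) hCee hCec with h | h
    · left
      refine ⟨?_, h⟩
      have h3 := hm a
      rw [IrrData.chi, h, Matrix.trace_zero] at h3
      rcases mul_eq_zero.1 h3.symm with h4 | h4
      · exact absurd h4 hn0
      · exact_mod_cast h4
    · right
      have h3 := hm a
      rw [IrrData.chi, h, Matrix.trace_one, Fintype.card_fin] at h3
      have h4 : I.d a = n * m a := by exact_mod_cast h3
      refine ⟨?_, h, h4⟩
      intro h0
      rw [h0, mul_zero] at h4
      exact (I.pos a).ne' h4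
  have hsq : ∑ a, (m a) ^ 2 = 1 := by
    have h3 := E0aux.regular I (toC O H e)
    rw [toC_apply, h1] at h3
    have h4 : ∀ a, (I.d a : ℂ) * I.chi a (toC O H e) = (n : ℂ) ^ 2 * ((m a ^ 2 : ℕ) : ℂ) := by
      intro a
      rcases hcase a with h | h
      · rw [hm a, h.1]
        push_cast
        ring
      · rw [hm a, h.2.2]
        push_cast
        ring
    rw [Finset.sum_congr rfl fun a _ => h4 a, ← Finset.mul_sum] at h3
    have h5 : (∑ a, ((m a ^ 2 : ℕ) : ℂ)) = 1 := by
      apply mul_left_cancel₀ (pow_ne_zero 2 hn0)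
      rw [h3, mul_one]
    exact_mod_cast h5
  obtain ⟨a, ha, hb⟩ : ∃ a, m a = 1 ∧ ∀ b, b ≠ a → m b = 0 := by
    have h3 : ∃ a, m a ≠ 0 := by
      by_contra hcon
      push Not at hcon
      rw [Finset.sum_eq_zero (fun a _ => by rw [hcon a]; rfl)] at hsq
      omega
    obtain ⟨a, ha⟩ := h3
    have h4 : (m a) ^ 2 + ∑ b ∈ Finset.univ.erase a, (m b) ^ 2 = 1 := by
      rw [Finset.add_sum_erase _ (fun b => (m b) ^ 2) (Finset.mem_univ a), hsq]
    have h5 : 1 ≤ (m a) ^ 2 := Nat.one_le_pow _ _ (Nat.pos_of_ne_zero ha)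
    have h6 : ∑ b ∈ Finset.univ.erase a, (m b) ^ 2 = 0 := by omega
    refine ⟨a, ?_, fun b hba => ?_⟩
    · have h7 : (m a) ^ 2 = 1 := by omega
      exact (Nat.pow_eq_one.1 h7).resolve_right (by norm_num)
    · have h7 := Finset.sum_eq_zero_iff.1 h6 b (Finset.mem_erase.2 ⟨hba, Finset.mem_univ _⟩)
      exact pow_eq_zero_iff (two_ne_zero) |>.1 h7
  have hda : I.d a = n := by
    rcases hcase a with h | h
    · omega
    · rw [h.2.2, ha, mul_one]
  have heq : toC O H e = E0aux.e I a := by
    apply I.equiv.injective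
    rw [E0aux.equiv_e]
    funext b
    by_cases hba : b = a
    · subst hba
      rw [Pi.single_eq_same]
      rcases hcase b with h | h
      · omega
      · exact h.2.1
    · rw [Pi.single_eq_of_ne hba]
      rcases hcase b with h | h
      · exact h.2
      · exact absurd (hb b hba) h.1
  have hco : ∀ g : H, (Nat.card H : ℂ) * (e.coeff g : ℂ) = n * I.ch a g⁻¹ := by
    intro g
    rw [← toC_apply, heq, E0aux.e_coeff, hda]
  have hinv : ∀ g : H, e.coeff g⁻¹ = e.coeff g := by
    intro g
    rw [← inv'_coeff, her]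
  have hreal : ∀ g : H, I.ch a g⁻¹ = I.ch a g := by
    intro g
    apply mul_left_cancel₀ hn0
    rw [← hco g]
    have h3 := hco g⁻¹
    rw [inv_inv] at h3
    rw [← h3, hinv]
  have hco' : ∀ g : H, (Nat.card H : ℂ) * (e.coeff g : ℂ) = n * I.ch a g := by
    intro g
    rw [hco, hreal]
  -- the Frobenius - Schur indicator
  obtain ⟨s, hs, hsum, -⟩ := fs_twisted I (MonoidHom.id H) 1 (by intro u; simp) rfl a
    (by intro u; exact hreal u)
  have hfs : ∑ g : H, (e.coeff (g * g) : ℂ) = n * s := by
    have h3 : ∑ g : H, I.ch a (g * g) = (Nat.card H : ℂ) * s := by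
      rw [div_eq_iff hH0] at hsum
      rw [mul_comm, ← hsum]
      refine Finset.sum_congr rfl fun g _ => ?_
      rw [MonoidHom.id_apply, one_mul]
    apply mul_left_cancel₀ hH0
    rw [Finset.mul_sum, Finset.sum_congr rfl fun g _ => hco' (g * g), ← Finset.mul_sum, h3]
    ring
  rw [sum_sq O h2 e hee hec] at hfs
  -- the multiplicities
  have hmul : ∀ v : H, ∃ k : ℕ, ∑ c ∈ cset v, I.ch a c = ((cset v).card : ℂ) * k := by
    intro v
    obtain ⟨d, ρ, hρ⟩ := ch_isChar I a
    have hch : IsChar (fun c : cent v => I.ch a (c : H)) :=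
      ⟨d, ρ.comp (cent v).subtype, fun c => hρ c⟩
    obtain ⟨k, hk⟩ := char_inner (fun c : cent v => I.ch a (c : H)) (fun _ => 1) hch isChar_one
    have hcard : (cset v).card = Nat.card (cent v) := by
      rw [Nat.card_eq_fintype_card, Fintype.card_subtype]
      unfold cset
      congr 1
      ext c
      simp only [Finset.mem_filter, Finset.mem_univ, true_and,
        Subgroup.mem_centralizer_singleton_iff]
    have h0 : (Nat.card (cent v) : ℂ) ≠ 0 := Nat.cast_ne_zero.2 Nat.card_pos.ne'
    refine ⟨k, ?_⟩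
    rw [hcard]
    rw [div_eq_iff h0] at hk
    rw [mul_comm, ← hk]
    have h3 : ∑ c ∈ cset v, I.ch a c = ∑ c : cent v, I.ch a (c : H) := by
      refine Finset.sum_subtype _ (fun g => ?_) _
      unfold cset
      rw [Subgroup.mem_centralizer_singleton_iff]
      simp
    rw [h3]
    exact Finset.sum_congr rfl fun c _ => by rw [mul_one]
  choose k hk using hmul
  have hkM : ∀ v : H, (Nat.card H : ℂ) * ∑ c ∈ cset v, (e.coeff c : ℂ) =
      n * (((cset v).card : ℂ) * k v) := by
    intro v
    rw [← hk v, Finset.mul_sum, Finset.mul_sum]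
    exact Finset.sum_congr rfl fun c _ => hco' c
  -- the multiplicity at `t` is positive
  have hkt : k t ≠ 0 := by
    intro h0
    have hk0 := hk t
    rw [h0, Nat.cast_zero, mul_zero] at hk0
    -- the sum of the centraliser acts as zero
    set F : MonoidAlgebra ℂ H := ∑ c ∈ cset t, el ℂ c with hF
    have hcs : (cset t).Nonempty := ⟨1, by simp [cset]⟩
    have hcard0 : ((cset t).card : ℂ) ≠ 0 := Nat.cast_ne_zero.2 (Finset.card_pos.2 hcs).ne'
    have hFF : F * F = ((cset t).card : ℂ) • F := by
      have h3 : ∀ c ∈ cset t, el ℂ c * F = F := by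
        intro c hc
        simp only [cset, Finset.mem_filter, Finset.mem_univ, true_and] at hc
        rw [hF, Finset.mul_sum]
        simp only [← el_mul]
        refine Finset.sum_bij (fun d _ => c * d) ?_ ?_ ?_ ?_
        · intro d hd
          simp only [cset, Finset.mem_filter, Finset.mem_univ, true_and] at hd ⊢
          rw [mul_assoc, hd, ← mul_assoc, hc, mul_assoc]
        · intro d _ d' _ h
          exact mul_left_cancel h
        · intro d hd
          simp only [cset, Finset.mem_filter, Finset.mem_univ, true_and] at hd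
          refine ⟨c⁻¹ * d, ?_, by group⟩
          simp only [cset, Finset.mem_filter, Finset.mem_univ, true_and]
          have h5 : c⁻¹ * t = t * c⁻¹ := by
            calc c⁻¹ * t = c⁻¹ * (t * c) * c⁻¹ := by group
              _ = c⁻¹ * (c * t) * c⁻¹ := by rw [hc]
              _ = t * c⁻¹ := by group
          calc c⁻¹ * d * t = c⁻¹ * (d * t) := by group
            _ = c⁻¹ * t * d := by rw [hd]; group
            _ = t * (c⁻¹ * d) := by rw [h5]; group
        · intro d _
          rfl
      conv_lhs => rw [hF]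
      rw [Finset.sum_mul, Finset.sum_congr rfl h3, Finset.sum_const, ← Nat.cast_smul_eq_nsmul ℂ]
    have hA0 : I.equiv F a = 0 := by
      have h3 : (I.equiv F a) * (I.equiv F a) = ((cset t).card : ℂ) • I.equiv F a := by
        rw [← Pi.mul_apply, ← map_mul, hFF, map_smul, Pi.smul_apply]
      have h4 : Matrix.trace (I.equiv F a) = 0 := by
        have h5 : I.chi a F = ∑ c ∈ cset t, I.ch a c := by
          rw [hF, chi_sum]
          rfl
        rw [hk0] at h5
        exact h5
      have h5 : ((((cset t).card : ℂ)⁻¹) • I.equiv F a) *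
          ((((cset t).card : ℂ)⁻¹) • I.equiv F a) = (((cset t).card : ℂ)⁻¹) • I.equiv F a := by
        rw [smul_mul_smul_comm, h3, smul_smul, mul_assoc, inv_mul_cancel₀ hcard0, mul_one]
      have h6 := F1aux.mat_zero _ h5 (by rw [Matrix.trace_smul, h4, smul_zero])
      rcases smul_eq_zero.1 h6 with h7 | h7
      · exact absurd h7 (inv_ne_zero hcard0)
      · exact h7
    have heF : toC O H e * F = 0 := by
      apply I.equiv.injective
      rw [map_mul, map_zero]
      funext b
      rw [Pi.mul_apply, Pi.zero_apply]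
      by_cases hba : b = a
      · subst hba
        rw [hA0, mul_zero]
      · rcases hcase b with h | h
        · rw [h.2, zero_mul]
        · exact absurd (hb b hba) h.1
    -- the coefficients
    have hzero : ∀ g : H, ∑ c ∈ cset t, e.coeff (g * c) = 0 := by
      intro g
      have h3 := congrArg (fun z => z.coeff g) heF
      simp only [hF, Finset.mul_sum, MonoidAlgebra.coeff_sum, MonoidAlgebra.coeff_zero] at h3
      rw [Finset.sum_apply'] at h3
      simp only [mul_el_coeff, toC_apply] at h3
      have h4 : ∑ c ∈ cset t, (e.coeff (g * c⁻¹) : ℂ) = 0 := h3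
      have h5 : ∑ c ∈ cset t, (e.coeff (g * c) : ℂ) = ∑ c ∈ cset t, (e.coeff (g * c⁻¹) : ℂ) := by
        refine Finset.sum_bij (fun c _ => c⁻¹) ?_ ?_ ?_ ?_
        · intro c hc
          simp only [cset, Finset.mem_filter, Finset.mem_univ, true_and] at hc ⊢
          calc c⁻¹ * t = c⁻¹ * (t * c) * c⁻¹ := by group
            _ = c⁻¹ * (c * t) * c⁻¹ := by rw [hc]
            _ = t * c⁻¹ := by group
        · intro c _ c' _ h
          exact inv_injective h
        · intro c hc
          simp only [cset, Finset.mem_filter, Finset.mem_univ, true_and] at hc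
          refine ⟨c⁻¹, ?_, inv_inv c⟩
          simp only [cset, Finset.mem_filter, Finset.mem_univ, true_and]
          calc c⁻¹ * t = c⁻¹ * (t * c) * c⁻¹ := by group
            _ = c⁻¹ * (c * t) * c⁻¹ := by rw [hc]
            _ = t * c⁻¹ := by group
        · intro c _
          rw [inv_inv]
      rw [h4] at h5
      have h6 : ((∑ c ∈ cset t, e.coeff (g * c) : O) : ℂ) = 0 := by
        push_cast
        exact h5
      exact Subtype.ext h6
    -- the square lemma
    have h3 := sq_coeff (toK O H e) (by rw [← map_mul, hee])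
      (fun y => by
        obtain ⟨y', rfl⟩ := toK_surjective O y
        rw [← map_mul, ← map_mul, hec]) (by rw [← toK_inv', her]) t (t * x) ht (by
          have hti : t⁻¹ = t := inv_eq_of_mul_eq_one_left ht
          rw [hti] at htx
          calc t * x * (t * x) = (t * x * t) * x := by group
            _ = 1 := by rw [htx, inv_mul_cancel])
    rw [← mul_assoc, ht, one_mul, toK_apply] at h3
    apply hx
    rw [h3]
    have h4 : ∑ g ∈ tr (t * x) t, (toK O H e).coeff g = 0 := by
      rcases Finset.eq_empty_or_nonempty (tr (t * x) t) with h5 | ⟨g0, h5⟩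
      · rw [h5, Finset.sum_empty]
      · rw [sum_tr _ h5]
        simp only [toK_apply]
        rw [← map_sum, hzero, map_zero]
    rw [h4]
    exact zero_pow two_ne_zero
  -- the count
  have hclass : ∀ v : H, (tr v t).Nonempty → k v = k t ∧ (tr v t).card = (cset v).card ∧
      v * v = 1 := by
    rintro v ⟨g0, hg0⟩
    have hc1 : (cset v).card = (cset t).card := by
      rw [← card_tr hg0]
      have h3 := sum_tr (fun _ => (1 : ℕ)) hg0
      rw [Finset.sum_const, Finset.sum_const, smul_eq_mul, smul_eq_mul, mul_one, mul_one] at h3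
      exact h3
    have hg1 := mem_tr.1 hg0
    have hv : v = g0 * t * g0⁻¹ := by rw [hg1]; group
    refine ⟨?_, card_tr hg0, ?_⟩
    · have h3 : ∑ c ∈ cset v, I.ch a c = ∑ c ∈ cset t, I.ch a c := by
        symm
        refine Finset.sum_bij (fun c _ => g0 * c * g0⁻¹) ?_ ?_ ?_ ?_
        · intro c hc
          simp only [cset, Finset.mem_filter, Finset.mem_univ, true_and] at hc ⊢
          rw [hv]
          calc g0 * c * g0⁻¹ * (g0 * t * g0⁻¹) = g0 * (c * t) * g0⁻¹ := by group
            _ = g0 * (t * c) * g0⁻¹ := by rw [hc]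
            _ = g0 * t * g0⁻¹ * (g0 * c * g0⁻¹) := by group
        · intro c _ c' _ h
          exact mul_left_cancel (mul_right_cancel h)
        · intro c hc
          simp only [cset, Finset.mem_filter, Finset.mem_univ, true_and] at hc
          refine ⟨g0⁻¹ * c * g0, ?_, by group⟩
          simp only [cset, Finset.mem_filter, Finset.mem_univ, true_and]
          rw [hv] at hc
          calc g0⁻¹ * c * g0 * t = g0⁻¹ * (c * (g0 * t * g0⁻¹)) * g0 := by group
            _ = g0⁻¹ * (g0 * t * g0⁻¹ * c) * g0 := by rw [hc]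
            _ = t * (g0⁻¹ * c * g0) := by group
        · intro c _
          exact (F1aux.ch_class I a g0 c).symm
      rw [hk, hk, hc1] at h3
      have hcs : (cset t).Nonempty := ⟨1, by simp [cset]⟩
      have hcard0 : ((cset t).card : ℂ) ≠ 0 := Nat.cast_ne_zero.2 (Finset.card_pos.2 hcs).ne'
      exact_mod_cast mul_left_cancel₀ hcard0 h3
    · rw [hv]
      calc g0 * t * g0⁻¹ * (g0 * t * g0⁻¹) = g0 * (t * t) * g0⁻¹ := by group
        _ = 1 := by rw [ht, mul_one, mul_inv_cancel]
  set U : Finset H := Finset.univ.filter (fun v : H => v * v = 1) with hU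
  have htot : ∑ v ∈ U, (cset v).card * k v = Nat.card H ∧ s = 1 ∨
      ∑ v ∈ U, (cset v).card * k v = 0 := by
    have h3 : ((∑ v ∈ U, (cset v).card * k v : ℕ) : ℂ) = (Nat.card H : ℂ) * s := by
      push_cast
      apply mul_left_cancel₀ hn0
      rw [Finset.mul_sum, ← Finset.sum_congr rfl fun v _ => hkM v, ← Finset.mul_sum, hfs]
      ring
    rcases hs with hs | hs
    · left
      refine ⟨?_, hs⟩
      rw [hs, Int.cast_one, mul_one] at h3
      exact_mod_cast h3
    · right
      rw [hs, Int.cast_neg, Int.cast_one, mul_neg, mul_one] at h3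
      have h4 : ((∑ v ∈ U, (cset v).card * k v + Nat.card H : ℕ) : ℂ) = 0 := by
        rw [Nat.cast_add, h3, neg_add_cancel]
      have h5 : ∑ v ∈ U, (cset v).card * k v + Nat.card H = 0 := by exact_mod_cast h4
      omega
  have hlow : ∑ v ∈ U, (tr v t).card * k t = Nat.card H * k t := by
    rw [← sum_card_tr t, Finset.sum_mul]
    refine Finset.sum_subset (Finset.subset_univ _) fun v _ hv => ?_
    rcases Finset.eq_empty_or_nonempty (tr v t) with h3 | h3
    · rw [h3, Finset.card_empty, zero_mul]
    · exfalso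
      apply hv
      rw [hU, Finset.mem_filter]
      exact ⟨Finset.mem_univ _, (hclass v h3).2.2⟩
  have hle : ∀ v ∈ U, (tr v t).card * k t ≤ (cset v).card * k v := by
    intro v _
    rcases Finset.eq_empty_or_nonempty (tr v t) with h3 | h3
    · rw [h3, Finset.card_empty, zero_mul]
      exact Nat.zero_le _
    · rw [(hclass v h3).1, (hclass v h3).2.1]
  have hsle := Finset.sum_le_sum hle
  rw [hlow] at hsle
  have hHpos : 0 < Nat.card H := Nat.card_pos
  have hktpos : 1 ≤ k t := Nat.pos_of_ne_zero hkt
  have hbound : Nat.card H ≤ Nat.card H * k t := Nat.le_mul_of_pos_right _ hktpos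
  have htotal : ∑ v ∈ U, (cset v).card * k v = Nat.card H := by
    rcases htot with h3 | h3
    · exact h3.1
    · omega
  have hkt1 : k t = 1 := by
    rw [htotal] at hsle
    have h3 : Nat.card H * k t ≤ Nat.card H * 1 := by rw [mul_one]; exact hsle
    have h4 : k t ≤ 1 := Nat.le_of_mul_le_mul_left h3 hHpos
    omega
  have heqs : ∑ v ∈ U, (tr v t).card * k t = ∑ v ∈ U, (cset v).card * k v := by
    rw [hlow, htotal, hkt1, mul_one]
  have hfin := (Finset.sum_eq_sum_iff_of_le hle).1 heqs u (by
    rw [hU, Finset.mem_filter]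
    exact ⟨Finset.mem_univ _, hu⟩)
  rw [hkt1, mul_one] at hfin
  rw [hkM u, hfin]
  push_cast
  ring

end base

end Pool.Agent.Helper32.ND
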