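import Pool.Agent.Helper32.ND.B

/-!
# The transfer from `G/Q` to `G` and the case of a normal defect group
-/

set_option autoImplicit false
open scoped BigOperators MonoidAlgebra
open Classical

namespace Pool.Agent.Helper32.ND

open Pool.Agent.Helper36.NB Pool.Agent.Helper44.S3

theorem orb_iff (O : ValuationSubring ℂ) {G : Type} [Group G] [Fintype G]
    (e : MonoidAlgebra O G) (n : ℕ) (D E : Subgroup G) (u : G) :
    Orb O e n D E u ↔ (Nat.card G : ℂ) * ∑ s ∈ cset u, (e.coeff s : ℂ) =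
      n * (Nat.card {g : G // g⁻¹ * u * g ∈ E ∧ g⁻¹ * u * g ∉ D} : ℂ) := Iff.rfl

theorem mem_cset {G : Type} [Group G] [Fintype G] {u s : G} : s ∈ cset u ↔ s * u = u * s := by
  unfold cset
  rw [Finset.mem_filter]
  exact ⟨fun h => h.2, fun h => ⟨Finset.mem_univ _, h⟩⟩

theorem sum_cset {G M : Type} [Group G] [Fintype G] [AddCommMonoid M] (u : G) (f : G → M) :
    ∑ s ∈ cset u, f s = ∑ s : G, if s * u = u * s then f s else 0 := by
  unfold cset
  rw [Finset.sum_filter]

section transfer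

variable (O : ValuationSubring ℂ) {G : Type} [Group G] [Fintype G]
  (h2 : (2 : O) ∈ IsLocalRing.maximalIdeal O) (e : MonoidAlgebra O G) (he : e * e = e)
  (hec : ∀ a, a * e = e * a) (S : SimpleQuot (toK O G e)) (Q : Subgroup G) [Q.Normal]
  [Fintype (G ⧸ Q)] (hQ : IsPGroup 2 Q)

include h2 he hec S hQ in
/-- The sums of the coefficients over the centralisers. -/
theorem sum_cset_mk (u : G) :
    ∑ s ∈ cset (u : G ⧸ Q), (pr O Q e).coeff s = ∑ s ∈ cset u, e.coeff s := by
  rw [sum_cset, sum_cset]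
  have h1 : ∀ w : G ⧸ Q, ∀ f : G ⧸ Q → Prop, (if f w then (pr O Q e).coeff w else 0) =
      ∑ g : G, if (g : G ⧸ Q) = w then (if f g then e.coeff g else 0) else 0 := by
    intro w f
    by_cases h : f w
    · rw [if_pos h, pr_coeff]
      refine Finset.sum_congr rfl fun g _ => ?_
      by_cases h3 : (g : G ⧸ Q) = w
      · rw [if_pos h3, if_pos h3, if_pos (by rw [h3]; exact h)]
      · rw [if_neg h3, if_neg h3]
    · rw [if_neg h]
      symm
      refine Finset.sum_eq_zero fun g _ => ?_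
      by_cases h3 : (g : G ⧸ Q) = w
      · rw [if_pos h3, if_neg (by rw [h3]; exact h)]
      · rw [if_neg h3]
  refine (Finset.sum_congr rfl fun w _ => h1 w (fun w => w * u = u * w)).trans ?_
  rw [Finset.sum_comm]
  refine Finset.sum_congr rfl fun g _ => ?_
  rw [Finset.sum_ite_eq Finset.univ (g : G ⧸ Q), if_pos (Finset.mem_univ _)]
  by_cases hg : e.coeff g = 0
  · rw [hg, ite_self, ite_self]
  · have hiff := comm_of_mk O h2 e he hec S Q hQ g u hg
    by_cases hc : g * u = u * g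
    · rw [if_pos hc, if_pos (hiff.2 hc)]
    · rw [if_neg hc, if_neg (fun h => hc (hiff.1 h))]

/-- The fibres of `G → G/Q`. -/
theorem card_fib {G : Type} [Group G] [Fintype G] (Q : Subgroup G) (w : G ⧸ Q) :
    (Finset.univ.filter (fun g : G => (g : G ⧸ Q) = w)).card = Nat.card Q := by
  obtain ⟨g0, rfl⟩ := QuotientGroup.mk_surjective w
  rw [Nat.card_eq_fintype_card, ← Finset.card_univ]
  symm
  refine Finset.card_bij (fun (q : Q) _ => g0 * (q : G)) ?_ ?_ ?_
  · intro q _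
    rw [Finset.mem_filter]
    refine ⟨Finset.mem_univ _, ?_⟩
    rw [QuotientGroup.eq]
    have h : (g0 * (q : G))⁻¹ * g0 = (q : G)⁻¹ := by group
    rw [h]
    exact Q.inv_mem q.2
  · intro q _ q' _ h
    exact Subtype.ext (mul_left_cancel h)
  · intro g hg
    rw [Finset.mem_filter, QuotientGroup.eq] at hg
    refine ⟨⟨g0⁻¹ * g, ?_⟩, Finset.mem_univ _, by simp⟩
    have h : g0⁻¹ * g = (g⁻¹ * g0)⁻¹ := by group
    rw [h]
    exact Q.inv_mem hg.2

/-- Counting elements by their images. -/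
theorem card_pull {G : Type} [Group G] [Fintype G] (Q : Subgroup G) [Fintype (G ⧸ Q)]
    (P : G ⧸ Q → Prop) :
    Nat.card {g : G // P (g : G ⧸ Q)} = Nat.card Q * Nat.card {w : G ⧸ Q // P w} := by
  rw [Nat.card_eq_fintype_card, Fintype.card_subtype, Nat.card_eq_fintype_card (α := {w // P w}),
    Fintype.card_subtype]
  have h1 := Finset.card_eq_sum_card_fiberwise
    (s := Finset.univ.filter (fun g : G => P (g : G ⧸ Q)))
    (t := Finset.univ.filter (fun w : G ⧸ Q => P w)) (f := fun g : G => (g : G ⧸ Q))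
    (fun g hg => by
      simp only [Finset.coe_filter, Finset.mem_univ, true_and, Set.mem_ofPred_eq] at hg ⊢
      exact hg)
  rw [h1]
  have h3 : ∀ w ∈ Finset.univ.filter (fun w : G ⧸ Q => P w),
      ((Finset.univ.filter (fun g : G => P (g : G ⧸ Q))).filter
        (fun g : G => (g : G ⧸ Q) = w)).card = Nat.card Q := by
    intro w hw
    rw [Finset.mem_filter] at hw
    rw [← card_fib Q w, Finset.filter_filter]
    congr 1
    ext g
    simp only [Finset.mem_filter, Finset.mem_univ, true_and]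
    constructor
    · rintro ⟨-, h⟩
      exact h
    · intro h
      exact ⟨by rw [h]; exact hw.2, h⟩
  rw [Finset.sum_congr rfl h3, Finset.sum_const, smul_eq_mul, mul_comm]

theorem mem_map_mk {G : Type} [Group G] (Q D : Subgroup G) [Q.Normal] (h : Q ≤ D) (g : G) :
    (g : G ⧸ Q) ∈ D.map (QuotientGroup.mk' Q) ↔ g ∈ D := by
  constructor
  · rintro ⟨d, hd, hdg⟩
    have h1 : (d : G ⧸ Q) = g := hdg
    rw [QuotientGroup.eq] at h1
    have h3 := D.mul_mem hd (h h1)
    rwa [mul_inv_cancel_left] at h3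
  · intro hg
    exact ⟨g, hg, rfl⟩

include h2 he hec hQ in
/-- The orbit-wise identity passes from `G/Q` to `G`. -/
theorem transfer (D E : Subgroup G) (hQD : Q ≤ D) (hDE : D ≤ E) (u : G)
    (h : Orb O (pr O Q e) S.n (D.map (QuotientGroup.mk' Q)) (E.map (QuotientGroup.mk' Q))
      (u : G ⧸ Q)) : Orb O e S.n D E u := by
  rw [orb_iff] at h ⊢
  have h1 := sum_cset_mk O h2 e he hec S Q hQ u
  have h1' : ∑ s ∈ cset (u : G ⧸ Q), ((pr O Q e).coeff s : ℂ) =
      ∑ s ∈ cset u, (e.coeff s : ℂ) := by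
    have h3 : ((∑ s ∈ cset (u : G ⧸ Q), (pr O Q e).coeff s : O) : ℂ) =
        ((∑ s ∈ cset u, e.coeff s : O) : ℂ) := by rw [h1]
    push_cast at h3
    exact h3
  have h3 := card_pull Q (fun w : G ⧸ Q => w⁻¹ * u * w ∈ E.map (QuotientGroup.mk' Q) ∧
    w⁻¹ * u * w ∉ D.map (QuotientGroup.mk' Q))
  have h4 : Nat.card {g : G // g⁻¹ * u * g ∈ E ∧ g⁻¹ * u * g ∉ D} =
      Nat.card {g : G // (g : G ⧸ Q)⁻¹ * u * g ∈ E.map (QuotientGroup.mk' Q) ∧
        (g : G ⧸ Q)⁻¹ * u * g ∉ D.map (QuotientGroup.mk' Q)} := by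
    refine Nat.card_congr (Equiv.subtypeEquivRight fun g => ?_)
    have h5 : (g : G ⧸ Q)⁻¹ * u * g = ((g⁻¹ * u * g : G) : G ⧸ Q) := by
      rw [QuotientGroup.mk_mul, QuotientGroup.mk_mul, QuotientGroup.mk_inv]
    rw [h5, mem_map_mk Q E (hQD.trans hDE), mem_map_mk Q D hQD]
  rw [h4, h3, ← h1', Subgroup.card_eq_card_quotient_mul_card_subgroup Q]
  push_cast
  rw [mul_comm (Nat.card (G ⧸ Q) : ℂ) (Nat.card Q : ℂ), mul_assoc, h]
  ring

end transfer

section normal

variable (O : ValuationSubring ℂ) {G : Type} [Group G] [Fintype G]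
  (h2 : (2 : O) ∈ IsLocalRing.maximalIdeal O)

include h2 in
/-- The rank of `e`. -/
theorem rank_e (e : MonoidAlgebra O G) (he : e * e = e) (hec : ∀ a, a * e = e * a)
    (S : SimpleQuot (toK O G e)) (x : G) (hx : IsDefectClass O e x) (hxr : IsConj x x⁻¹)
    (D : Subgroup G) (hD : Nat.card D = 2 ^ (Nat.card (cent x)).factorization 2) :
    (Nat.card G : ℂ) * (e.coeff 1 : ℂ) = (S.n : ℂ) ^ 2 * (Nat.card D : ℂ) := by
  obtain ⟨I⟩ := exists_irrData G
  obtain ⟨j, hj, hje, hj1⟩ := exists_rank_one O e he hec S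
  obtain ⟨hc, -, -⟩ := defect_data O h2 I e he hec S j hj hje hj1 x hx.1 hxr hx.2.1 hx.2.2 D hD
  have hce : ∀ a, I.chi a (toC O G e) = (S.n : ℂ) * I.chi a (toC O G j) := by
    intro a
    have h := trace_rank O e he hec S j hj hje hj1 e he he (TraceFun.ofChi O I a)
    simp only [TraceFun.ofChi_apply] at h
    rw [h, S.one, Matrix.rank_one, Fintype.card_fin]
  have hCec : ∀ y, y * toC O G e = toC O G e * y := by
    apply E0aux.central_of_el
    intro g
    rw [← toC_el O g, ← map_mul, ← map_mul, hec]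
  have hdj : ∀ a, (I.d a : ℂ) * I.chi a (toC O G j) =
      (S.n : ℂ) * I.chi a (toC O G j) ^ 2 := by
    intro a
    have h := E0aux.chi_mul_central I a (toC O G e) (toC O G j) hCec
    rw [← map_mul, ← hec, hje, hce] at h
    rw [h]
    ring
  rw [← hc, ← toC_apply, ← E0aux.regular I, Finset.mul_sum]
  refine Finset.sum_congr rfl fun a _ => ?_
  calc (I.d a : ℂ) * I.chi a (toC O G e) = (S.n : ℂ) * ((I.d a : ℂ) * I.chi a (toC O G j)) := by
        rw [hce]; ring
    _ = (S.n : ℂ) ^ 2 * I.chi a (toC O G j) ^ 2 := by rw [hdj]; ring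

include h2 in
/-- The orbit-wise identity for a normal defect group. -/
theorem orb_normal (e : MonoidAlgebra O G) (he : IsBlock e) (her : inv' e = e)
    (S : SimpleQuot (toK O G e)) (x : G) (hx : IsDefectClass O e x) (D E : Subgroup G)
    (hDE : IsDefectPair x D E) (hne : D ≠ E) (hn : D.Normal) (u : G) (hu : u * u = 1) :
    Orb O e S.n D E u := by
  haveI := hn
  haveI : Fintype (G ⧸ D) := Fintype.ofFinite _
  obtain ⟨he0, hee, hec, -⟩ := id he
  have hD2 : IsPGroup 2 D := IsPGroup.of_card hDE.2.2.2.1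
  obtain ⟨t, ht, ht'⟩ := exists_t hDE hne
  refine transfer O h2 e hee hec S D hD2 D E le_rfl hDE.1 u ?_
  obtain ⟨I⟩ := exists_irrData (G ⧸ D)
  obtain ⟨j, hj, hje, hj1⟩ := exists_rank_one O e hee hec S
  have hqe : pr O D e * pr O D e = pr O D e := by rw [← map_mul, hee]
  have hqc : ∀ a, a * pr O D e = pr O D e * a := by
    intro a
    obtain ⟨a', rfl⟩ := pr_surj O D a
    rw [← map_mul, ← map_mul, hec]
  have hqr : inv' (pr O D e) = pr O D e := by rw [← pr_inv, her]
  have h1 : (Nat.card (G ⧸ D) : ℂ) * ((pr O D e).coeff 1 : ℂ) = (S.n : ℂ) ^ 2 := by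
    have h3 := rank_e O h2 e hee hec S x hx (pair_real hDE hne) D hDE.2.2.2.1
    rw [pr_coeff_one O h2 e hee hec D hD2]
    have hD0 : (Nat.card D : ℂ) ≠ 0 := Nat.cast_ne_zero.2 Nat.card_pos.ne'
    apply mul_right_cancel₀ hD0
    rw [← h3, Subgroup.card_eq_card_quotient_mul_card_subgroup D]
    push_cast
    ring
  have hdiv : ∀ a, ∃ m : ℕ, I.chi a (toC O (G ⧸ D) (pr O D e)) = (S.n : ℂ) * m := by
    intro a
    have h := trace_rank O e hee hec S j hj hje hj1 e hee hee
      (pull O D (TraceFun.ofChi O I a))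
    simp only [pull_apply, TraceFun.ofChi_apply] at h
    obtain ⟨m, hm⟩ := chi_idem I a (toC O (G ⧸ D) (pr O D j)) (by
      rw [← map_mul, ← map_mul, hj])
    refine ⟨m, ?_⟩
    rw [h, S.one, Matrix.rank_one, Fintype.card_fin, hm]
  have htt : (t : G ⧸ D) * t = 1 := by
    rw [← QuotientGroup.mk_mul, QuotientGroup.eq_one_iff]
    exact tt_mem hDE ht ht'
  have htx : (t : G ⧸ D) * x * (t : G ⧸ D)⁻¹ = (x : G ⧸ D)⁻¹ := by
    rw [← QuotientGroup.mk_mul, ← QuotientGroup.mk_inv, ← QuotientGroup.mk_mul,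
      defectPair_t hDE ht ht', QuotientGroup.mk_inv]
  have huu : (u : G ⧸ D) * u = 1 := by
    rw [← QuotientGroup.mk_mul, hu, QuotientGroup.mk_one]
  have hxq : IsLocalRing.residue O ((pr O D e).coeff (x : G ⧸ D)) ≠ 0 := by
    rw [pr_coeff_odd O h2 e hee hec S D hD2 x hx.1]
    exact hx.2.1
  have hb := base O h2 I (pr O D e) hqe hqc hqr S.n S.pos h1 hdiv (t : G ⧸ D) (x : G ⧸ D) htt htx
    hxq (u : G ⧸ D) huu
  rw [orb_iff, hb]
  congr 2
  unfold tr
  rw [Nat.card_eq_fintype_card, Fintype.card_subtype]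
  congr 1
  ext w
  simp only [Finset.mem_filter, Finset.mem_univ, true_and]
  obtain ⟨g, rfl⟩ := QuotientGroup.mk_surjective w
  have h5 : (g : G ⧸ D)⁻¹ * u * g = ((g⁻¹ * u * g : G) : G ⧸ D) := by
    rw [QuotientGroup.mk_mul, QuotientGroup.mk_mul, QuotientGroup.mk_inv]
  rw [h5, mem_map_mk D E hDE.1, mem_map_mk D D le_rfl]
  constructor
  · intro h
    have h6 : ((t : G) : G ⧸ D) = ((g⁻¹ * u * g : G) : G ⧸ D) := by
      rw [← h5]
      calc (t : G ⧸ D) = (g : G ⧸ D)⁻¹ * (g * t) := by group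
        _ = (g : G ⧸ D)⁻¹ * (u * g) := by rw [h]
        _ = (g : G ⧸ D)⁻¹ * u * g := by group
    rw [QuotientGroup.eq] at h6
    constructor
    · have h7 := E.mul_mem ht (hDE.1 h6)
      rwa [mul_inv_cancel_left] at h7
    · intro h7
      apply ht'
      have h8 := D.mul_mem h7 (D.inv_mem h6)
      have h9 : g⁻¹ * u * g * (t⁻¹ * (g⁻¹ * u * g))⁻¹ = t := by group
      rwa [h9] at h8
  · rintro ⟨h6, h7⟩
    have h8 : ((t : G) : G ⧸ D) = ((g⁻¹ * u * g : G) : G ⧸ D) := by
      rw [QuotientGroup.eq]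
      exact t_mul_mem hDE ht ht' h6 h7
    rw [h8, ← h5]
    group

end normal

end Pool.Agent.Helper32.ND
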